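import Mathlib
import Pool.Agent.Lib.MP_4f5f6e_ag.Final

set_option autoImplicit false

/-
The Ulmer property for elliptic surfaces over the projective line, with or without section, whose
special values satisfy few algebraic relations.
-/

namespace Pool.Agent.Results.MP_4f5f6e_ag.UlmerPropertySpecialValues

open Polynomial

/-- `J : y ^ 2 = x ^ 3 + a(T) x + b(T)` is a minimal Weierstrass equation over the projective line
with coordinate `T`, of height `χ` -/
structure IsMinimalWeierstrass (a b : ℂ[X]) (χ : ℕ) : Prop where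
  disc_ne_zero : 4 * a ^ 3 + 27 * b ^ 2 ≠ 0
  minimal : ∀ z : ℂ, ¬ ((X - C z) ^ 4 ∣ a ∧ (X - C z) ^ 6 ∣ b)
  height : IsLeast {N : ℕ | a.natDegree ≤ 4 * N ∧ b.natDegree ≤ 6 * N} χ

/-- the value of a rational function at a point which is not a pole (at a pole it is `0`) -/
noncomputable def value (Φ : RatFunc ℂ) (z : ℂ) : ℂ := Φ.num.eval z / Φ.denom.eval z

/-- the degree of a rational function -/
noncomputable def degree (Φ : RatFunc ℂ) : ℕ := max Φ.num.natDegree Φ.denom.natDegree

/-- `Φ` is not constant, its value at infinity is infinite or in `k`, and `a ^ 3 / b ^ 2 = R(Φ)` with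
`R = U / V` infinite or a rational function with coefficients in `k` -/
structure IsModuliMap (k : Subfield ℂ) (a b : ℂ[X]) (Φ : RatFunc ℂ) : Prop where
  nonconstant : ∀ c : ℂ, Φ ≠ RatFunc.C c
  at_infinity : Φ.num.natDegree = Φ.denom.natDegree → Φ.num.leadingCoeff ∈ k
  relation : ∃ U V : ℂ[X], (∀ i, U.coeff i ∈ k) ∧ (∀ i, V.coeff i ∈ k) ∧ (U ≠ 0 ∨ V ≠ 0) ∧
    algebraMap ℂ[X] (RatFunc ℂ) a ^ 3 * aeval Φ V = algebraMap ℂ[X] (RatFunc ℂ) b ^ 2 * aeval Φ U

open Classical in
/-- the multiplicity of `z` as a special point: `0` if `Φ(z)` is infinite or in `k`; otherwise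
`ord_z (Φ - Φ(z)) - 1`, increased by one if the fibre of `J` at `z` is singular -/
noncomputable def mult (k : Subfield ℂ) (a b : ℂ[X]) (Φ : RatFunc ℂ) (z : ℂ) : ℕ :=
  if value Φ z ∈ k then 0 else
    (Φ.num - C (value Φ z) * Φ.denom).rootMultiplicity z - 1 +
      if (4 * a ^ 3 + 27 * b ^ 2).eval z = 0 then 1 else 0

open Classical in
/-- the number of automorphisms of the generic fibre of `J` with its zero -/
noncomputable def autOrder (a b : ℂ[X]) : ℕ := if a = 0 then 6 else if b = 0 then 4 else 2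

/-- the field `F` of functions of a surface with a dominant rational map `(T, x, y)` to `J` over the
projective line -/
structure DominatesWeierstrass (a b : ℂ[X]) {F : Type} [Field F] [Algebra ℂ F] (T x y : F) :
    Prop where
  transcendental : Transcendental ℂ T
  equation : y ^ 2 = x ^ 3 + aeval T a * x + aeval T b
  finite : FiniteDimensional (IntermediateField.adjoin ℂ {T, x}) F

/-- a rational curve, not contained in a fibre of `T`, on the surface with function field `F`: its
local ring is a valuation ring `O` which contains `ℂ(T)`, and restriction to its normalisation is a map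
from `O` onto the field of rational functions of one variable -/
structure HorizontalRationalCurve {F : Type} [Field F] [Algebra ℂ F] (T : F) where
  O : ValuationSubring F
  horizontal : ∀ z ∈ IntermediateField.adjoin ℂ {T}, z ∈ O
  res : O →+* RatFunc ℂ
  surjective : Function.Surjective res
  const : ∀ c : ℂ, res ⟨algebraMap ℂ F c,
    horizontal _ ((IntermediateField.adjoin ℂ {T}).algebraMap_mem c)⟩ = RatFunc.C c

/-- the intersection number with a fibre: the degree of the restriction of `T` -/
noncomputable def HorizontalRationalCurve.fibreDegree {F : Type} [Field F] [Algebra ℂ F] {T : F}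
    (C : HorizontalRationalCurve T) : ℕ :=
  degree (C.res ⟨T, C.horizontal T (IntermediateField.mem_adjoin_simple_self ℂ T)⟩)

theorem result (k : Subfield ℂ) [IsAlgClosed k] (a b : ℂ[X]) (χ : ℕ)
    (hJ : IsMinimalWeierstrass a b χ) (Φ : RatFunc ℂ) (hΦ : IsModuliMap k a b Φ)
    (s : Finset ℂ) (hs : s.Nonempty)
    (hspecial : ∀ c ∈ s, ∃ z, value Φ z = c ∧ mult k a b Φ z ≠ 0)
    (hindependent : AlgebraicIndependent k (fun c : s => (c : ℂ)))
    (hfew : ∑ᶠ z, mult k a b Φ z + 3 ≤ χ + s.card)
    {F : Type} [Field F] [Algebra ℂ F] (T x y : F) (hF : DominatesWeierstrass a b T x y)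
    (C : HorizontalRationalCurve T) :
    C.fibreDegree ≤ 4 * Module.finrank (IntermediateField.adjoin ℂ {T, x}) F *
      (autOrder a b * degree Φ - 1) := by
  obtain ⟨U, V, hU, hV, hUV, hrel⟩ := hΦ.relation
  have hmult : ∀ z, mult k a b Φ z =
      Lib.MP_4f5f6e_ag.mu k Φ.num Φ.denom (4 * a ^ 3 + 27 * b ^ 2) z := fun z => by
    unfold mult Lib.MP_4f5f6e_ag.mu value
    rfl
  have haut : autOrder a b = Lib.MP_4f5f6e_ag.autOrd a b := by
    unfold autOrder Lib.MP_4f5f6e_ag.autOrd
    rfl
  have hsum : ∑ᶠ z, mult k a b Φ z =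
      ∑ᶠ z, Lib.MP_4f5f6e_ag.mu k Φ.num Φ.denom (4 * a ^ 3 + 27 * b ^ 2) z :=
    finsum_congr hmult
  have hmain := fun (t x y : RatFunc ℂ) (htc : ∀ c : ℂ, t ≠ RatFunc.C c)
      (hxy : y ^ 2 = x ^ 3 + aeval t a * x + aeval t b)
      (hgen : IntermediateField.adjoin ℂ {t, x, y} = ⊤) =>
    Lib.MP_4f5f6e_ag.main k hJ.disc_ne_zero hJ.minimal hJ.height hΦ.nonconstant hΦ.at_infinity
      hU hV hUV hrel s hs (fun c hc => by
        obtain ⟨z, hz, hz'⟩ := hspecial c hc
        exact ⟨z, hz, by rw [← hmult]; exact hz'⟩) hindependent (by rw [← hsum]; exact hfew)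
      htc hxy hgen
  have hpos : 1 ≤ degree Φ := by
    by_contra hcon
    have h1 : degree Φ = 0 := by omega
    unfold degree at h1
    obtain ⟨c, hc⟩ := (RatFunc.eq_C_iff Φ).2 (Nat.max_eq_zero_iff.1 h1)
    exact hΦ.nonconstant c hc
  have haut2 : 2 ≤ autOrder a b := by
    unfold autOrder
    split_ifs <;> norm_num
  have hw : 2 ≤ autOrder a b * degree Φ := by
    calc 2 = 2 * 1 := by norm_num
      _ ≤ autOrder a b * degree Φ := Nat.mul_le_mul haut2 hpos
  have h := Lib.MP_4f5f6e_ag.final (B := 4 * (autOrder a b * degree Φ)) (by omega) a b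
    (fun t x y h1 h2 h3 => by
      have := hmain t x y h1 h2 h3
      rw [haut]
      unfold degree
      rw [← mul_assoc]
      exact this)
    hF.transcendental hF.equation hF.finite C.horizontal C.res C.surjective C.const
  change degree _ + _ ≤ _ at h
  change degree _ ≤ _
  set n := Module.finrank (IntermediateField.adjoin ℂ {T, x}) F with hn
  have e : 4 * (autOrder a b * degree Φ) * n = 4 * n * (autOrder a b * degree Φ - 1) + 4 * n := by
    obtain ⟨m, hm⟩ : ∃ m, autOrder a b * degree Φ = m + 1 := ⟨_, (Nat.sub_add_cancel (by omega)).symm⟩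
    rw [hm, Nat.add_sub_cancel]
    ring
  rw [e] at h
  exact Nat.le_of_add_le_add_right h

/-- example: one moving point. If `A, B` have coefficients in `k` and `c` is not in `k`, then the
quadratic twist by `T - c` has the Ulmer property, as soon as its height is at least three -/
theorem twist (k : Subfield ℂ) [IsAlgClosed k] (A B a b : ℂ[X]) (hA : ∀ i, A.coeff i ∈ k)
    (hB : ∀ i, B.coeff i ∈ k) (c : ℂ) (hc : c ∉ k) (ha : a = (X - C c) ^ 2 * A)
    (hb : b = (X - C c) ^ 3 * B) (χ : ℕ) (hχ : 3 ≤ χ) (hJ : IsMinimalWeierstrass a b χ)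
    {F : Type} [Field F] [Algebra ℂ F] (T x y : F) (hF : DominatesWeierstrass a b T x y)
    (D : HorizontalRationalCurve T) :
    D.fibreDegree ≤ 20 * Module.finrank (IntermediateField.adjoin ℂ {T, x}) F := by
  have hdisc : 4 * a ^ 3 + 27 * b ^ 2 = (X - C c) ^ 6 * (4 * A ^ 3 + 27 * B ^ 2) := by
    rw [ha, hb]; ring
  have hD0 : 4 * A ^ 3 + 27 * B ^ 2 ≠ 0 := by
    intro h
    apply hJ.disc_ne_zero
    rw [hdisc, h, mul_zero]
  have hAB : A ≠ 0 ∨ B ≠ 0 := by
    by_contra h
    push Not at h
    apply hD0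
    rw [h.1, h.2]
    ring
  have hval : ∀ z, value RatFunc.X z = z := by
    intro z
    rw [value, RatFunc.num_X, RatFunc.denom_X, eval_X, eval_one, div_one]
  have hcoeff : ∀ (n : ℕ) (P : ℂ[X]), (∀ i, P.coeff i ∈ k) → ∀ i, (P ^ n).coeff i ∈ k := by
    intro n P hP
    have h1 : P ∈ Polynomial.lifts (algebraMap k ℂ) := by
      rw [Polynomial.lifts_iff_coeff_lifts]
      exact fun i => ⟨⟨P.coeff i, hP i⟩, rfl⟩
    obtain ⟨W, hW⟩ := (Polynomial.mem_lifts P).1 h1
    intro i
    rw [← hW, ← Polynomial.map_pow, coeff_map]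
    exact ((W ^ n).coeff i).2
  have hE : ∀ i, (4 * A ^ 3 + 27 * B ^ 2).coeff i ∈ k := by
    intro i
    have e4 : (4 : ℂ[X]) = C 4 := (map_ofNat C 4).symm
    have e27 : (27 : ℂ[X]) = C 27 := (map_ofNat C 27).symm
    rw [e4, e27, coeff_add, coeff_C_mul, coeff_C_mul]
    refine k.add_mem (k.mul_mem ?_ (hcoeff 3 A hA i)) (k.mul_mem ?_ (hcoeff 2 B hB i))
    · exact_mod_cast natCast_mem k 4
    · exact_mod_cast natCast_mem k 27
  generalize hEE : 4 * A ^ 3 + 27 * B ^ 2 = E at hdisc hD0 hE
  have hmult : ∀ z, mult k a b RatFunc.X z = if z = c then 1 else 0 := by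
    intro z
    unfold mult
    rw [hval, RatFunc.num_X, RatFunc.denom_X, mul_one, rootMultiplicity_X_sub_C_self,
      Nat.sub_self, zero_add, hdisc]
    by_cases hz : z = c
    · have h0 : eval z ((X - C c) ^ 6 * E) = 0 := by
        rw [hz, eval_mul, eval_pow, eval_sub, eval_X, eval_C, sub_self]
        ring
      have hzk : z ∉ k := by rw [hz]; exact hc
      rw [if_neg hzk, if_pos h0, if_pos hz]
    · rw [if_neg hz]
      split_ifs with h1 h2
      · rfl
      · exfalso
        rw [eval_mul] at h2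
        rcases mul_eq_zero.1 h2 with h3 | h3
        · rw [eval_pow, eval_sub, eval_X, eval_C] at h3
          exact hz (sub_eq_zero.1 (pow_eq_zero_iff (by norm_num) |>.1 h3))
        · exact Lib.MP_4f5f6e_ag.eval_ne_zero_of_coeff k hE hD0 h1 h3
      · rfl
  have hsum : ∑ᶠ z, mult k a b RatFunc.X z = 1 := by
    rw [finsum_congr hmult]
    exact (finsum_eq_single _ c (fun z hz => if_neg hz)).trans (if_pos rfl)
  have hdeg : degree (RatFunc.X : RatFunc ℂ) = 1 := by
    rw [degree, RatFunc.num_X, RatFunc.denom_X, natDegree_X, natDegree_one]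
    rfl
  have hΦ : IsModuliMap k a b RatFunc.X :=
    { nonconstant := fun c' h => by
        have h1 := (RatFunc.eq_C_iff (RatFunc.X : RatFunc ℂ)).1 ⟨c', h⟩
        rw [RatFunc.num_X, natDegree_X] at h1
        omega
      at_infinity := fun h => by
        rw [RatFunc.num_X, RatFunc.denom_X, natDegree_X, natDegree_one] at h
        omega
      relation := ⟨A ^ 3, B ^ 2, hcoeff 3 A hA, hcoeff 2 B hB, hAB.imp (pow_ne_zero 3)
        (pow_ne_zero 2), by
          have hpoly : a ^ 3 * B ^ 2 = b ^ 2 * A ^ 3 := by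
            rw [ha, hb]
            ring
          have h1 := congrArg (algebraMap ℂ[X] (RatFunc ℂ)) hpoly
          rw [map_mul, map_mul, map_pow _ a, map_pow _ b] at h1
          rw [RatFunc.aeval_X_left_eq_algebraMap, RatFunc.aeval_X_left_eq_algebraMap]
          exact h1⟩ }
  have hsp : ∀ c' ∈ ({c} : Finset ℂ), ∃ z, value RatFunc.X z = c' ∧
      mult k a b RatFunc.X z ≠ 0 := by
    intro c' hc'
    have h1 : c' = c := Finset.mem_singleton.1 hc'
    refine ⟨c, by rw [hval, h1], ?_⟩
    rw [hmult c, if_pos rfl]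
    exact one_ne_zero
  have hind : AlgebraicIndependent k (fun c' : ({c} : Finset ℂ) => (c' : ℂ)) := by
    have : Subsingleton ({c} : Finset ℂ) := ⟨fun u v => Subtype.ext
      ((Finset.mem_singleton.1 u.2).trans (Finset.mem_singleton.1 v.2).symm)⟩
    rw [algebraicIndependent_singleton_iff (⟨c, Finset.mem_singleton_self c⟩ : ({c} : Finset ℂ))]
    exact Lib.MP_4f5f6e_ag.transcendental_of_not_mem k hc
  have hfew : ∑ᶠ z, mult k a b RatFunc.X z + 3 ≤ χ + ({c} : Finset ℂ).card := by
    rw [hsum, Finset.card_singleton]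
    omega
  have h := result k a b χ hJ RatFunc.X hΦ {c} (Finset.singleton_nonempty c) hsp hind hfew
    T x y hF D
  rw [hdeg, mul_one] at h
  have haut : autOrder a b ≤ 6 := by
    unfold autOrder
    split_ifs <;> norm_num
  refine h.trans ?_
  have h6 : autOrder a b - 1 ≤ 5 := by omega
  calc 4 * Module.finrank (IntermediateField.adjoin ℂ {T, x}) F * (autOrder a b - 1)
      ≤ 4 * Module.finrank (IntermediateField.adjoin ℂ {T, x}) F * 5 :=
        Nat.mul_le_mul_left _ h6
    _ = 20 * Module.finrank (IntermediateField.adjoin ℂ {T, x}) F := by ring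

end Pool.Agent.Results.MP_4f5f6e_ag.UlmerPropertySpecialValues
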